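import Pool.Agent.N378.KH.Stm

/-!
# KH/COV (helper374 for helper378): the deterministic cover
-/

set_option autoImplicit false

namespace Pool.Agent.N374.KH

open Pool.Agent.N378.KH

theorem t_COV : S_COV := by
  intro n m k x hx T hT
  obtain ⟨_, u, c, hu, hc, hk⟩ := hT
  obtain ⟨j, hj⟩ : ∃ j, ∀ j', |u j'| ≤ |u j| := Finite.exists_max (fun j => |u j|)
  have huj : u j ≠ 0 := by
    intro h0
    apply hu
    funext j'
    have h1 := hj j'
    rw [h0, abs_zero] at h1
    exact abs_nonpos_iff.1 h1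
  have hupos : 0 < |u j| := abs_pos.2 huj
  obtain ⟨a, ha⟩ : ∃ a : Fin m → ℝ, ∀ l, a l = - u (j.succAbove l) / u j := ⟨_, fun _ => rfl⟩
  have ha1 : ∀ l, |a l| ≤ 1 := by
    intro l
    rw [ha, abs_div, abs_neg]
    exact (div_le_one hupos).2 (hj _)
  have hsum : ∀ i, ∑ j', u j' * x (i, j') = u j * ht j a x i := by
    intro i
    rw [Fin.sum_univ_succAbove _ j]
    unfold ht
    rw [mul_sub, Finset.mul_sum, sub_eq_add_neg, ← Finset.sum_neg_distrib]
    congr 1
    apply Finset.sum_congr rfl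
    intro l _
    rw [ha]
    field_simp
  obtain ⟨b, hb⟩ : ∃ b : Bool, u j = |u j| * (if b then (1 : ℝ) else -1) := by
    rcases lt_or_gt_of_ne huj with h | h
    · exact ⟨false, by simp [abs_of_neg h]⟩
    · exact ⟨true, by simp [abs_of_pos h]⟩
  refine ⟨j, b, ?_⟩
  intro p hp
  obtain ⟨s, hs⟩ : ∃ s : ℝ, s = if b then (1 : ℝ) else -1 := ⟨_, rfl⟩
  rw [← hs] at hb ⊢
  have hpc : u j * ht j a x p = c := by rw [← hsum p]; exact hc p hp
  have hiff : ∀ i, s * ht j a x i < s * ht j a x p ↔ ∑ j', u j' * x (i, j') < c := by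
    intro i
    rw [hsum i, ← hpc, hb]
    have e1 : ∀ y : ℝ, |u j| * s * y = |u j| * (s * y) := fun y => by ring
    rw [e1, e1]
    constructor
    · intro h
      exact mul_lt_mul_of_pos_left h hupos
    · intro h
      exact lt_of_mul_lt_mul_left h hupos.le
  refine ⟨hx, a, ⟨ha1, ?_⟩, ?_⟩
  · rw [← hk]
    congr 1
    unfold below
    ext i
    rw [Finset.mem_filter, Finset.mem_filter, hiff i]
    constructor
    · rintro ⟨h1, _, h2⟩
      exact ⟨h1, h2⟩
    · rintro ⟨h1, h2⟩
      refine ⟨h1, ?_, h2⟩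
      intro h3
      have h4 := hc i (Finset.mem_of_mem_erase h3)
      exact absurd h2 (by rw [h4]; exact lt_irrefl c)
  · intro q hq
    have h4 := hc q (Finset.mem_of_mem_erase hq)
    rw [hsum q, ← hpc] at h4
    exact mul_left_cancel₀ huj h4

end Pool.Agent.N374.KH
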