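import Pool.Agent.N657.QL.Stm

/-!
# QL/RATIO: the polynomials `AM`, `cM`
-/

namespace Pool.Agent.N374.QLRATIO

open Pool.Agent.N657.QL

/-- `C(2j,j)/4^j`. -/
noncomputable def aa (j : ℕ) : ℝ := ((2 * j).choose j : ℝ) / 4 ^ j

lemma aa_pos (j : ℕ) : 0 < aa j := by
  have h : 0 < (2 * j).choose j := Nat.choose_pos (by omega)
  unfold aa
  positivity

lemma aa_succ (j : ℕ) : (2 * (j : ℝ) + 2) * aa (j + 1) = (2 * (j : ℝ) + 1) * aa j := by
  have h := Nat.succ_mul_centralBinom_succ j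
  unfold Nat.centralBinom at h
  have h' : ((j : ℝ) + 1) * ((2 * (j + 1)).choose (j + 1) : ℝ) =
      2 * (2 * (j : ℝ) + 1) * ((2 * j).choose j : ℝ) := by exact_mod_cast h
  unfold aa
  rw [pow_succ]
  field_simp
  linarith

lemma ch (n k : ℕ) : ((k : ℝ) + 1) * (n.choose (k + 1) : ℝ) = ((n : ℝ) - k) * (n.choose k : ℝ) := by
  rcases Nat.lt_or_ge n k with h | h
  · rw [Nat.choose_eq_zero_of_lt h, Nat.choose_eq_zero_of_lt (by omega)]
    simp
  · have := Nat.choose_succ_right_eq n k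
    have h2 : (n.choose (k + 1) : ℝ) * ((k : ℝ) + 1) = (n.choose k : ℝ) * ((n - k : ℕ) : ℝ) := by
      exact_mod_cast this
    rw [Nat.cast_sub h] at h2
    linarith

lemma tel (n N : ℕ) :
    ∑ j ∈ Finset.range N, ((n : ℝ) + 1) * ((n.choose (2 * j + 1) : ℝ) * aa (j + 1)) -
      ∑ j ∈ Finset.range (N + 1), (n : ℝ) * ((n.choose (2 * j) : ℝ) * aa j) =
      -((2 * (N : ℝ) + 1) * (n.choose (2 * N + 1) : ℝ) * aa N) := by
  induction N with
  | zero =>
    have := ch n 0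
    simp [aa] at this ⊢
  | succ N ih =>
    rw [Finset.sum_range_succ, Finset.sum_range_succ _ (N + 1)]
    have e1 := ch n (2 * N + 1)
    have e2 := ch n (2 * N + 2)
    have e3 := aa_succ N
    have e4 : 2 * (N + 1) = 2 * N + 2 := by ring
    rw [e4]
    have e5 : 2 * N + 2 + 1 = 2 * N + 3 := rfl
    rw [e5] at e2 ⊢
    have e6 : 2 * N + 1 + 1 = 2 * N + 2 := rfl
    rw [e6] at e1
    push_cast at e1 e2 ⊢
    set A := (n.choose (2 * N + 1) : ℝ)
    set B := (n.choose (2 * N + 2) : ℝ)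
    set C := (n.choose (2 * N + 3) : ℝ)
    have key : ∀ S T x : ℝ, S - T = x → ∀ p q : ℝ, S + p - (T + q) = x + (p - q) := by
      intro S T x h p q; rw [← h]; ring
    rw [key _ _ _ ih]
    linear_combination A * e3 + aa (N + 1) * e2 - aa (N + 1) * e1

lemma AM_eq (M : ℕ) (u : ℝ) :
    AM M u = ∑ j ∈ Finset.range (M + 1), (((2 * M).choose (2 * j) : ℝ) * aa j) * u ^ j := by
  unfold AM aa
  refine Finset.sum_congr rfl fun j _ => ?_
  ring

lemma cM_eq (M : ℕ) (u : ℝ) :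
    cM M u = ∑ j ∈ Finset.range M, (((2 * M).choose (2 * j + 1) : ℝ) * aa (j + 1)) * u ^ j := by
  unfold cM aa
  refine Finset.sum_congr rfl fun j _ => ?_
  rw [show 2 * (j + 1) = 2 * j + 2 by ring]
  ring

lemma key (M : ℕ) : (2 * (M : ℝ) + 1) * cM M 1 = 2 * M * AM M 1 := by
  have h := tel (2 * M) M
  rw [Nat.choose_eq_zero_of_lt (show 2 * M < 2 * M + 1 by omega)] at h
  rw [AM_eq, cM_eq, Finset.mul_sum, Finset.mul_sum]
  simp only [one_pow, mul_one]
  push_cast at h ⊢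
  linarith

lemma cM_pos {M : ℕ} (hM : 1 ≤ M) : 0 < cM M 1 := by
  rw [cM_eq]
  refine Finset.sum_pos (fun j hj => ?_) ⟨0, Finset.mem_range.2 hM⟩
  have h1 : 0 < (2 * M).choose (2 * j + 1) := Nat.choose_pos (by
    have := Finset.mem_range.1 hj; omega)
  have := aa_pos (j + 1)
  positivity

theorem main : S_RATIO := by
  refine ⟨fun δ hδ => ?_, fun M hM => ⟨cM_pos hM, fun u h0 h1 => ⟨?_, ?_, ?_, ?_⟩, ?_⟩⟩
  · obtain ⟨M, hM⟩ := exists_nat_gt (1 / δ)
    refine ⟨M + 1, by omega, ?_⟩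
    have hk := key (M + 1)
    have hp := cM_pos (M := M + 1) (by omega)
    push_cast at hk
    have h2 : 1 < δ * M := by
      rw [div_lt_iff₀ hδ] at hM
      linarith
    have h3 : AM (M + 1) 1 = (1 + 1 / (2 * ((M : ℝ) + 1))) * cM (M + 1) 1 := by
      field_simp
      linarith
    rw [h3]
    refine mul_le_mul_of_nonneg_right ?_ hp.le
    have : 1 / (2 * ((M : ℝ) + 1)) ≤ δ := by
      rw [div_le_iff₀ (by positivity)]
      nlinarith
    linarith
  · rw [AM_eq]
    have : (((2 * M).choose (2 * 0) : ℝ) * aa 0) * u ^ 0 ≤ ∑ j ∈ Finset.range (M + 1),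
        (((2 * M).choose (2 * j) : ℝ) * aa j) * u ^ j :=
      Finset.single_le_sum (f := fun j => (((2 * M).choose (2 * j) : ℝ) * aa j) * u ^ j)
        (fun j _ => mul_nonneg (mul_nonneg (Nat.cast_nonneg _) (aa_pos j).le) (pow_nonneg h0 j))
        (Finset.mem_range.2 (Nat.succ_pos M))
    simpa [aa] using this
  · rw [AM_eq, AM_eq]
    refine Finset.sum_le_sum fun j _ => ?_
    rw [one_pow, mul_one]
    exact mul_le_of_le_one_right (mul_nonneg (Nat.cast_nonneg _) (aa_pos j).le)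
      (pow_le_one₀ h0 h1)
  · rw [cM_eq]
    exact Finset.sum_nonneg fun j _ =>
      mul_nonneg (mul_nonneg (Nat.cast_nonneg _) (aa_pos _).le) (pow_nonneg h0 j)
  · rw [cM_eq, cM_eq]
    refine Finset.sum_le_sum fun j _ => ?_
    rw [one_pow, mul_one]
    exact mul_le_of_le_one_right (mul_nonneg (Nat.cast_nonneg _) (aa_pos _).le)
      (pow_le_one₀ h0 h1)
  · refine ⟨∑ j ∈ Finset.range M, (((2 * M).choose (2 * j + 1) : ℝ) * aa (j + 1)) * (j + 1),
      Finset.sum_nonneg fun j _ =>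
        mul_nonneg (mul_nonneg (Nat.cast_nonneg _) (aa_pos _).le) (by positivity),
      fun u h0 h1 => ?_⟩
    rw [cM_eq, cM_eq, Finset.mul_sum, Finset.sum_mul, ← Finset.sum_add_distrib]
    refine Finset.sum_le_sum fun j _ => ?_
    have hb := one_add_mul_le_pow (show (-2 : ℝ) ≤ u - 1 by linarith) (j + 1)
    have hb2 : 1 + ((j : ℝ) + 1) * (u - 1) ≤ u ^ (j + 1) := by
      have : (1 + (u - 1)) = u := by ring
      rw [this] at hb
      push_cast at hb
      exact hb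
    have hc : 0 ≤ ((2 * M).choose (2 * j + 1) : ℝ) * aa (j + 1) :=
      mul_nonneg (Nat.cast_nonneg _) (aa_pos _).le
    have := mul_le_mul_of_nonneg_left hb2 hc
    rw [one_pow, mul_one]
    rw [pow_succ] at this
    nlinarith

end Pool.Agent.N374.QLRATIO
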